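import Pool.Agent.W820.BM.Stm

set_option autoImplicit false

open Topology Filter Metric Set Polynomial MeasureTheory
open Pool.Agent.H713R3.ZA

namespace Pool.Agent.W346.BM

open Pool.Agent.W820.BM

theorem ap2 : S_AP2 := by
  intro a n B ha hn
  obtain ⟨A, hA1, hA⟩ := exists_coeff_bound a n B
  obtain ⟨R₁, hR₁, hesc⟩ := exists_esc ha hn B
  have han : 0 < ‖a‖ := norm_pos_iff.2 ha
  set D : ℝ := ((n + 1 : ℕ) : ℝ) * A / ‖a‖ with hD
  have hD0 : 0 ≤ D := by positivity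
  set R : ℝ := max (max R₁ (max 3 (B + 1))) (max (2 * D) (4 / ‖a‖ ^ 2)) with hR
  have hRR₁ : R₁ ≤ R := (le_max_left _ _).trans (le_max_left _ _)
  have hR3 : 3 ≤ R := ((le_max_left _ _).trans (le_max_right _ _)).trans (le_max_left _ _)
  have hRB : B + 1 ≤ R := ((le_max_right _ _).trans (le_max_right _ _)).trans (le_max_left _ _)
  have hRD : 2 * D ≤ R := (le_max_left _ _).trans (le_max_right _ _)
  have hRa : 4 / ‖a‖ ^ 2 ≤ R := (le_max_right _ _).trans (le_max_right _ _)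
  refine ⟨R, by linarith, hRB, fun x hx z hz => hesc x hx z (hRR₁.trans hz), ?_⟩
  -- growth of one step
  have hstep : ∀ x : PE n, ‖x‖ ≤ B → ∀ z : ℂ, R ≤ ‖z‖ →
      R ≤ ‖fx a n x z‖ ∧ 3 / 2 * Real.log ‖z‖ ≤ Real.log ‖fx a n x z‖ := by
    intro x hx z hz
    have hz1 : 1 ≤ ‖z‖ := by linarith
    have hz0 : 0 < ‖z‖ := by linarith
    have h1 := hesc x hx z (hRR₁.trans hz)
    refine ⟨by linarith, ?_⟩
    have h2 := lead_bound (d := n + 1) ha (by linarith : 0 ≤ A) (natDegree_fam_le a n x)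
      (coeff_fam_top a n x) (hA x hx) hz1
    have h3 : (((n + 1 : ℕ) : ℝ) * A / ‖a‖) / ‖z‖ ≤ 1 / 2 := by
      rw [← hD, div_le_iff₀ hz0]
      linarith
    have h4 := h2.trans h3
    set q : ℂ := (fam a n x).eval z / (a * z ^ (n + 1)) with hq
    have h5 : 1 / 2 ≤ ‖q‖ := by
      have h6 := norm_sub_norm_le (1 : ℂ) q
      rw [norm_one, norm_sub_rev] at h6
      linarith
    have hz0' : z ≠ 0 := norm_pos_iff.1 hz0
    have h6 : ‖fx a n x z‖ = ‖q‖ * (‖a‖ * ‖z‖ ^ (n + 1)) := by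
      rw [hq, ← norm_pow, ← norm_mul, ← norm_mul, div_mul_cancel₀]
      · rfl
      · exact mul_ne_zero ha (pow_ne_zero _ hz0')
    have h7 : ‖z‖ ^ 2 ≤ ‖z‖ ^ (n + 1) := pow_le_pow_right₀ hz1 (by omega)
    have h8 : ‖a‖ / 2 * ‖z‖ ^ 2 ≤ ‖fx a n x z‖ := by
      rw [h6]
      calc ‖a‖ / 2 * ‖z‖ ^ 2 = 1 / 2 * (‖a‖ * ‖z‖ ^ 2) := by ring
        _ ≤ ‖q‖ * (‖a‖ * ‖z‖ ^ (n + 1)) := by
          refine mul_le_mul h5 (mul_le_mul_of_nonneg_left h7 han.le) (by positivity)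
            (norm_nonneg _)
    have h9 : ‖z‖ ^ 3 ≤ ‖fx a n x z‖ ^ 2 := by
      have h10 : (‖a‖ / 2 * ‖z‖ ^ 2) ^ 2 ≤ ‖fx a n x z‖ ^ 2 :=
        pow_le_pow_left₀ (by positivity) h8 2
      refine le_trans ?_ h10
      have h11 : 4 / ‖a‖ ^ 2 ≤ ‖z‖ := hRa.trans hz
      rw [div_le_iff₀ (by positivity)] at h11
      have h12 : (‖a‖ / 2 * ‖z‖ ^ 2) ^ 2 = ‖z‖ ^ 3 * (‖z‖ * ‖a‖ ^ 2 / 4) := by ring
      rw [h12]
      have h13 : 1 ≤ ‖z‖ * ‖a‖ ^ 2 / 4 := by linarith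
      exact le_mul_of_one_le_right (by positivity) h13
    have h10 := Real.log_le_log (by positivity) h9
    rw [Real.log_pow, Real.log_pow] at h10
    push_cast at h10
    linarith
  have hit : ∀ x : PE n, ‖x‖ ≤ B → ∀ z : ℂ, R ≤ ‖z‖ → ∀ m : ℕ,
      R ≤ ‖(fx a n x)^[m] z‖ ∧ (3 / 2 : ℝ) ^ m ≤ Real.log ‖(fx a n x)^[m] z‖ := by
    intro x hx z hz m
    induction m with
    | zero =>
      refine ⟨hz, ?_⟩
      rw [pow_zero, Function.iterate_zero, id]
      rw [Real.le_log_iff_exp_le (by linarith)]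
      have := Real.exp_one_lt_d9
      linarith
    | succ m ih =>
      rw [Function.iterate_succ_apply']
      obtain ⟨h1, h2⟩ := hstep x hx _ ih.1
      refine ⟨h1, ?_⟩
      rw [pow_succ]
      linarith [ih.2]
  intro N
  -- choice of M₀
  set c : ℝ := Real.log (2 + |B|) with hc
  have hlim : Tendsto (fun m : ℕ => ((m : ℝ) ^ 2 / (3 / 2 : ℝ) ^ m + c / (3 / 2 : ℝ) ^ m)) atTop
      (𝓝 (0 + 0)) := by
    refine (tendsto_pow_const_div_const_pow_of_one_lt 2 (by norm_num)).add ?_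
    exact tendsto_const_nhds.div_atTop (tendsto_pow_atTop_atTop_of_one_lt (by norm_num))
  rw [add_zero] at hlim
  obtain ⟨M, hM⟩ := eventually_atTop.1
    (hlim.eventually_lt_const (show (0 : ℝ) < (2 / 3) ^ N by positivity))
  refine ⟨max M N, le_max_right _ _, ?_⟩
  intro x hx z hz m hm j hj
  have hmM : M ≤ m := (le_max_left _ _).trans hm
  have hmN : N ≤ m := (le_max_right _ _).trans hm
  have h1 := hM m hmM
  have h2 : (m : ℝ) ^ 2 + c < (3 / 2 : ℝ) ^ (m - j) := by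
    rw [← add_div, div_lt_iff₀ (by positivity)] at h1
    refine lt_of_lt_of_le h1 ?_
    have h3 : (2 / 3 : ℝ) ^ N * (3 / 2) ^ m = (3 / 2) ^ (m - N) := by
      have h4 : (3 / 2 : ℝ) ^ m = (3 / 2) ^ (m - N) * (3 / 2) ^ N := by
        rw [← pow_add]
        congr 1
        omega
      rw [h4, mul_comm ((3 / 2 : ℝ) ^ (m - N)), ← mul_assoc, ← mul_pow]
      norm_num
    rw [h3]
    exact pow_le_pow_right₀ (by norm_num) (by omega)
  have h3 := (hit x hx z hz (m - j)).2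
  have h4 : Real.exp ((m : ℝ) ^ 2 + c) < ‖(fx a n x)^[m - j] z‖ := by
    rw [← Real.lt_log_iff_exp_lt]
    · linarith
    · have := (hit x hx z hz (m - j)).1
      linarith
  refine lt_of_le_of_lt ?_ h4
  rw [Real.exp_add, hc, Real.exp_log (by positivity)]
  have h5 : 1 ≤ Real.exp ((m : ℝ) ^ 2) := Real.one_le_exp (by positivity)
  have h6 := le_abs_self B
  have h7 := abs_nonneg B
  nlinarith

end Pool.Agent.W346.BM
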