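import Pool.Agent.W820.BM.Stm

set_option autoImplicit false

open Topology Filter Metric Set Polynomial MeasureTheory
open Pool.Agent.H713R3.ZA

namespace Pool.Agent.W346.BM

open Pool.Agent.W820.BM

lemma eval_bound (q : ℂ[X]) (N : ℕ) (A ρ : ℝ) (hA : 0 ≤ A) (hρ : 1 ≤ ρ) (hN : q.natDegree < N)
    (hq : ∀ j, ‖q.coeff j‖ ≤ A) (z : ℂ) (hz : ‖z‖ ≤ ρ) : ‖q.eval z‖ ≤ N * A * ρ ^ N := by
  rw [Polynomial.eval_eq_sum_range' hN]
  refine (norm_sum_le _ _).trans ?_
  have h1 : ∀ j ∈ Finset.range N, ‖q.coeff j * z ^ j‖ ≤ A * ρ ^ N := by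
    intro j hj
    rw [Finset.mem_range] at hj
    rw [norm_mul, norm_pow]
    refine mul_le_mul (hq j) ?_ (by positivity) hA
    exact (pow_le_pow_left₀ (norm_nonneg _) hz j).trans (pow_le_pow_right₀ hρ hj.le)
  refine (Finset.sum_le_sum h1).trans ?_
  rw [Finset.sum_const, Finset.card_range, nsmul_eq_mul, mul_assoc]

lemma der_coeff (q : ℂ[X]) (N : ℕ) (A : ℝ) (hA : 0 ≤ A) (hN : q.natDegree < N)
    (hq : ∀ j, ‖q.coeff j‖ ≤ A) (j : ℕ) : ‖(derivative q).coeff j‖ ≤ A * N := by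
  rw [coeff_derivative, norm_mul]
  by_cases hj : j + 1 < N
  · refine mul_le_mul (hq _) ?_ (norm_nonneg _) hA
    have : ((j : ℂ) + 1) = ((j + 1 : ℕ) : ℂ) := by push_cast; ring
    rw [this, Complex.norm_natCast]
    exact_mod_cast hj.le
  · rw [coeff_eq_zero_of_natDegree_lt (by omega), norm_zero, zero_mul]
    positivity

theorem att : S_ATT := by
  intro a n B R hB hR
  obtain ⟨A, hA1, hA⟩ := exists_coeff_bound a n B
  have hA0 : 0 ≤ A := by linarith
  set N : ℕ := n + 2 with hN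
  have hN1 : (1 : ℝ) ≤ (N : ℝ) := by
    rw [hN]
    push_cast
    have : (0 : ℝ) ≤ n := Nat.cast_nonneg _
    linarith
  set L : ℝ := (N : ℝ) * (A * N * N) * (R + 1) ^ N with hL
  have hR1 : (1 : ℝ) ≤ (R + 1) ^ N := one_le_pow₀ (by linarith)
  have hL1 : 1 ≤ L := by
    rw [hL]
    have h1 : 1 ≤ A * N := by nlinarith
    have h2 : 1 ≤ A * N * N := by nlinarith
    have h3 : 1 ≤ (N : ℝ) * (A * N * N) := by nlinarith
    nlinarith
  have hL0 : 0 < L := by linarith
  set Cc : ℝ := 8 * L with hCc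
  refine ⟨Cc, by linarith, ?_⟩
  intro x hx y hy m hm horb hclose
  set T : ℂ[X] := fam a n x with hT
  have hdeg : T.natDegree < N := lt_of_le_of_lt (natDegree_fam_le a n x) (by omega)
  have hdeg1 : (derivative T).natDegree < N :=
    lt_of_le_of_lt (natDegree_derivative_le T) (by omega)
  have hdeg2 : (derivative (derivative T)).natDegree < N :=
    lt_of_le_of_lt (natDegree_derivative_le _) (by omega)
  have hc1 : ∀ j, ‖(derivative T).coeff j‖ ≤ A * N := der_coeff T N A hA0 hdeg (hA x hx)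
  have hc2 : ∀ j, ‖(derivative (derivative T)).coeff j‖ ≤ A * N * N :=
    der_coeff _ N (A * N) (by positivity) hdeg1 hc1
  have hb1 : ∀ z : ℂ, ‖z‖ ≤ R + 1 → ‖(derivative T).eval z‖ ≤ L := by
    intro z hz
    refine (eval_bound _ N (A * N) (R + 1) (by positivity) (by linarith) hdeg1 hc1 z hz).trans ?_
    rw [hL]
    have h1 : A * N ≤ A * N * N := le_mul_of_one_le_right (by positivity) hN1
    have h2 : (N : ℝ) * (A * N) ≤ N * (A * N * N) := mul_le_mul_of_nonneg_left h1 (by positivity)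
    exact mul_le_mul_of_nonneg_right h2 (by positivity)
  have hb2 : ∀ z : ℂ, ‖z‖ ≤ R + 1 → ‖(derivative (derivative T)).eval z‖ ≤ L := fun z hz =>
    eval_bound _ N (A * N * N) (R + 1) (by positivity) (by linarith) hdeg2 hc2 z hz
  set P : ℂ → ℂ := fx a n x with hP
  have hPd : ∀ z, HasDerivAt P ((derivative T).eval z) z := fun z => T.hasDerivAt z
  have hP'd : ∀ z, HasDerivAt (fun w => (derivative T).eval w)
      ((derivative (derivative T)).eval z) z := fun z => (derivative T).hasDerivAt z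
  have hy0 : (derivative T).eval y = 0 := by rw [← (hPd y).deriv]; exact hy
  have hyR : ‖y‖ ≤ R := by simpa using horb 0 (Nat.zero_le _)
  -- Lipschitz estimates
  have hlip : ∀ z w : ℂ, ‖z‖ ≤ R + 1 → ‖w‖ ≤ R + 1 → ‖P z - P w‖ ≤ L * ‖z - w‖ := by
    intro z w hz hw
    exact (convex_closedBall (0 : ℂ) (R + 1)).norm_image_sub_le_of_norm_hasDerivWithin_le
      (fun u _ => (hPd u).hasDerivWithinAt) (fun u hu => hb1 u (mem_closedBall_zero_iff.1 hu))
      (mem_closedBall_zero_iff.2 hw) (mem_closedBall_zero_iff.2 hz)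
  have hder : ∀ z : ℂ, ‖z‖ ≤ R + 1 → ‖(derivative T).eval z‖ ≤ L * ‖z - y‖ := by
    intro z hz
    have h1 := (convex_closedBall (0 : ℂ) (R + 1)).norm_image_sub_le_of_norm_hasDerivWithin_le
      (fun u _ => (hP'd u).hasDerivWithinAt) (fun u hu => hb2 u (mem_closedBall_zero_iff.1 hu))
      (mem_closedBall_zero_iff.2 (by linarith : ‖y‖ ≤ R + 1)) (mem_closedBall_zero_iff.2 hz)
    rw [hy0, sub_zero] at h1
    exact h1
  have hquad : ∀ z : ℂ, ‖z‖ ≤ R + 1 → ‖P z - P y‖ ≤ L * ‖z - y‖ ^ 2 := by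
    intro z hz
    have h1 := ((convex_closedBall (0 : ℂ) (R + 1)).inter
      (convex_closedBall y ‖z - y‖)).norm_image_sub_le_of_norm_hasDerivWithin_le
      (f := P) (C := L * ‖z - y‖)
      (fun u _ => (hPd u).hasDerivWithinAt) (fun u hu => by
        refine (hder u (mem_closedBall_zero_iff.1 hu.1)).trans ?_
        exact mul_le_mul_of_nonneg_left (mem_closedBall_iff_norm.1 hu.2) hL0.le)
      (x := y) (y := z) ⟨mem_closedBall_zero_iff.2 (by linarith), mem_closedBall_self (norm_nonneg _)⟩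
      ⟨mem_closedBall_zero_iff.2 hz, mem_closedBall_iff_norm.2 le_rfl⟩
    calc ‖P z - P y‖ ≤ L * ‖z - y‖ * ‖z - y‖ := h1
      _ = L * ‖z - y‖ ^ 2 := by ring
  -- the small radius
  set ε : ℝ := Cc⁻¹ ^ m with hε
  have hC0 : 0 < Cc := by positivity
  have hε0 : 0 < ε := by positivity
  have hLC : ∀ j ≤ m, L ^ j * ε ≤ 1 / 8 := by
    intro j hj
    have h1 : L ^ j ≤ L ^ m := pow_le_pow_right₀ hL1 hj
    have h2 : L ^ m * ε = (1 / 8) ^ m := by
      rw [hε, ← mul_pow]
      congr 1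
      rw [hCc]
      field_simp
    have h3 : (1 / 8 : ℝ) ^ m ≤ 1 / 8 := pow_le_of_le_one (by norm_num) (by norm_num) (by omega)
    have h4 := mul_le_mul_of_nonneg_right h1 hε0.le
    linarith
  have hε8 : ε ≤ 1 / 8 := by simpa using hLC 0 (Nat.zero_le _)
  have horb2 : ∀ z : ℂ, ‖z - y‖ ≤ 2 * ε → ∀ j, 1 ≤ j → j ≤ m →
      ‖P^[j] z - P^[j] y‖ ≤ L ^ j * ‖z - y‖ ^ 2 ∧ ‖P^[j] z‖ ≤ R + 1 := by
    intro z hz j hj1
    have hzR : ‖z‖ ≤ R + 1 := by
      have h1 : z = (z - y) + y := by ring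
      have h2 := norm_add_le (z - y) y
      rw [← h1] at h2
      linarith
    have hsq : ‖z - y‖ ^ 2 ≤ 4 * ε * ε := by
      have := pow_le_pow_left₀ (norm_nonneg _) hz 2
      nlinarith
    have hnorm : ∀ j, j ≤ m → ‖P^[j] z - P^[j] y‖ ≤ L ^ j * ‖z - y‖ ^ 2 →
        ‖P^[j] z‖ ≤ R + 1 := by
      intro j hjm h1
      have h2 : L ^ j * ‖z - y‖ ^ 2 ≤ 1 := by
        have h3 : L ^ j * ‖z - y‖ ^ 2 ≤ L ^ j * (4 * ε * ε) :=
          mul_le_mul_of_nonneg_left hsq (by positivity)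
        have h4 := hLC j hjm
        nlinarith
      have h5 : P^[j] z = (P^[j] z - P^[j] y) + P^[j] y := by ring
      have h6 := norm_add_le (P^[j] z - P^[j] y) (P^[j] y)
      rw [← h5] at h6
      have h7 := horb j hjm
      linarith
    induction j, hj1 using Nat.le_induction with
    | base =>
      intro hjm
      have h1 : ‖P^[1] z - P^[1] y‖ ≤ L ^ 1 * ‖z - y‖ ^ 2 := by
        rw [Function.iterate_one, pow_one]
        exact hquad z hzR
      exact ⟨h1, hnorm 1 hjm h1⟩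
    | succ j hj1 ih =>
      intro hjm
      obtain ⟨h1, h2⟩ := ih (by omega)
      have h3 : ‖P^[j + 1] z - P^[j + 1] y‖ ≤ L ^ (j + 1) * ‖z - y‖ ^ 2 := by
        rw [Function.iterate_succ_apply', Function.iterate_succ_apply']
        have h4 := hlip _ _ h2 (by have := horb j (by omega); linarith)
        calc ‖P (P^[j] z) - P (P^[j] y)‖ ≤ L * ‖P^[j] z - P^[j] y‖ := h4
          _ ≤ L * (L ^ j * ‖z - y‖ ^ 2) := mul_le_mul_of_nonneg_left h1 hL0.le
          _ = L ^ (j + 1) * ‖z - y‖ ^ 2 := by ring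
      exact ⟨h3, hnorm (j + 1) hjm h3⟩
  set Q : ℂ → ℂ := P^[m] with hQ
  have hmap : ∀ z : ℂ, ‖z - y‖ ≤ 2 * ε → ‖Q z - y‖ ≤ 2 * ε := by
    intro z hz
    have h1 := (horb2 z hz m hm le_rfl).1
    have h2 : L ^ m * ‖z - y‖ ^ 2 ≤ ε := by
      have h3 : ‖z - y‖ ^ 2 ≤ 4 * ε * ε := by
        have := pow_le_pow_left₀ (norm_nonneg _) hz 2
        nlinarith
      have h4 : L ^ m * ‖z - y‖ ^ 2 ≤ L ^ m * (4 * ε * ε) :=
        mul_le_mul_of_nonneg_left h3 (by positivity)
      have h5 := hLC m le_rfl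
      nlinarith
    have h6 : Q z - y = (Q z - Q y) + (Q y - y) := by ring
    rw [h6]
    refine (norm_add_le _ _).trans ?_
    have h7 : ‖Q z - Q y‖ ≤ L ^ m * ‖z - y‖ ^ 2 := h1
    have h8 : ‖Q y - y‖ ≤ ε := hclose
    linarith
  have hQd : ∀ z : ℂ, ‖z - y‖ ≤ 2 * ε → ∃ d : ℂ, HasDerivAt Q d z ∧ ‖d‖ ≤ 1 / 4 := by
    intro z hz
    have hzR : ‖z‖ ≤ R + 1 := by
      have h1 : z = (z - y) + y := by ring
      have h2 := norm_add_le (z - y) y
      rw [← h1] at h2
      linarith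
    have h1 : ∀ j, 1 ≤ j → j ≤ m → ∃ d : ℂ, HasDerivAt (P^[j]) d z ∧
        ‖d‖ ≤ L ^ j * (2 * ε) := by
      intro j hj1
      induction j, hj1 using Nat.le_induction with
      | base =>
        intro _
        refine ⟨(derivative T).eval z, ?_, ?_⟩
        · rw [Function.iterate_one]
          exact hPd z
        · rw [pow_one]
          exact (hder z hzR).trans (mul_le_mul_of_nonneg_left hz hL0.le)
      | succ j hj1 ih =>
        intro hjm
        obtain ⟨d, hd1, hd2⟩ := ih (by omega)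
        refine ⟨(derivative T).eval (P^[j] z) * d, ?_, ?_⟩
        · rw [Function.iterate_succ']
          exact (hPd (P^[j] z)).comp z hd1
        · rw [norm_mul, pow_succ, mul_comm (L ^ j) L, mul_assoc]
          exact mul_le_mul (hb1 _ (horb2 z hz j hj1 (by omega)).2) hd2 (norm_nonneg _) hL0.le
    obtain ⟨d, hd1, hd2⟩ := h1 m hm le_rfl
    refine ⟨d, hd1, ?_⟩
    have := hLC m le_rfl
    linarith
  have hcontr : ∀ z ∈ closedBall y (2 * ε), ∀ w ∈ closedBall y (2 * ε),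
      ‖Q z - Q w‖ ≤ 1 / 4 * ‖z - w‖ := by
    intro z hz w hw
    choose! Q' hQ'1 hQ'2 using hQd
    exact (convex_closedBall y (2 * ε)).norm_image_sub_le_of_norm_hasDerivWithin_le
      (fun u hu => (hQ'1 u (mem_closedBall_iff_norm.1 hu)).hasDerivWithinAt)
      (fun u hu => hQ'2 u (mem_closedBall_iff_norm.1 hu)) hw hz
  have hmaps : MapsTo Q (closedBall y (2 * ε)) (closedBall y (2 * ε)) := fun z hz =>
    mem_closedBall_iff_norm.2 (hmap z (mem_closedBall_iff_norm.1 hz))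
  have hCW : ContractingWith (1 / 4) (hmaps.restrict Q _ _) := by
    refine ⟨by norm_num, LipschitzWith.of_dist_le_mul fun z w => ?_⟩
    rw [Subtype.dist_eq, Subtype.dist_eq, dist_eq_norm, dist_eq_norm]
    have := hcontr z z.2 w w.2
    simpa using this
  obtain ⟨z₀, hz₀, hfix, _, _⟩ := hCW.exists_fixedPoint' isClosed_closedBall.isComplete hmaps
    (mem_closedBall_self (by positivity : 0 ≤ 2 * ε)) (edist_ne_top _ _)
  refine ⟨z₀, hfix, mem_closedBall_iff_norm.1 hz₀, ?_, ?_⟩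
  · obtain ⟨d, hd1, hd2⟩ := hQd z₀ (mem_closedBall_iff_norm.1 hz₀)
    rw [hd1.deriv]
    linarith
  · intro u hu
    have hQu : Q u ∈ closedBall y (2 * ε) := mem_closedBall_iff_norm.2 (by linarith)
    have hgeo : ∀ k : ℕ, Q^[k] (Q u) ∈ closedBall y (2 * ε) ∧
        ‖Q^[k] (Q u) - z₀‖ ≤ (1 / 4) ^ k * ‖Q u - z₀‖ := by
      intro k
      induction k with
      | zero => exact ⟨hQu, by simp⟩
      | succ k ih =>
        rw [Function.iterate_succ_apply']
        refine ⟨hmaps ih.1, ?_⟩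
        have h1 := hcontr _ ih.1 _ hz₀
        rw [hfix.eq] at h1
        rw [pow_succ]
        linarith [ih.2]
    have h1 : Tendsto (fun k : ℕ => Q^[k] (Q u)) atTop (𝓝 z₀) := by
      rw [tendsto_iff_norm_sub_tendsto_zero]
      refine squeeze_zero (fun k => norm_nonneg _) (fun k => (hgeo k).2) ?_
      have h2 := (tendsto_pow_atTop_nhds_zero_of_lt_one (r := (1 / 4 : ℝ)) (by norm_num)
        (by norm_num)).mul_const ‖Q u - z₀‖
      rw [zero_mul] at h2
      exact h2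
    have h2 : Tendsto (fun k : ℕ => Q^[k] u) atTop (𝓝 z₀) := by
      rw [← tendsto_add_atTop_iff_nat 1]
      exact h1
    refine h2.congr fun k => ?_
    rw [Function.iterate_mul]

end Pool.Agent.W346.BM
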